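import Mathlib
set_option autoImplicit false

/-!
Units of infinite order have a large and a small conjugate.
-/

namespace Pool.Agent.K6.H95.TC

open NumberField

theorem exists_large {K : Type*} [Field K] [NumberField K] (ε : (𝓞 K)ˣ) (hε : ¬ IsOfFinOrder ε) :
    ∃ σ : K →+* ℂ, 1 < ‖σ (ε : K)‖ := by
  by_contra hcon
  push Not at hcon
  apply hε
  have hint : IsIntegral ℤ (ε : K) := (ε : 𝓞 K).isIntegral_coe
  obtain ⟨n, hn, hn2⟩ := NumberField.Embeddings.pow_eq_one_of_norm_le_one K ℂ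
    (NumberField.Units.coe_ne_zero ε) hint hcon
  rw [isOfFinOrder_iff_pow_eq_one]
  refine ⟨n, hn, ?_⟩
  apply Units.ext
  apply FaithfulSMul.algebraMap_injective (𝓞 K) K
  rw [Units.val_pow_eq_pow_val, map_pow, Units.val_one, map_one]
  exact hn2

theorem exists_small {K : Type*} [Field K] [NumberField K] (ε : (𝓞 K)ˣ) (hε : ¬ IsOfFinOrder ε) :
    ∃ σ : K →+* ℂ, ‖σ (ε : K)‖ < 1 := by
  obtain ⟨σ, hσ⟩ := exists_large ε⁻¹ (by rwa [isOfFinOrder_inv_iff])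
  refine ⟨σ, ?_⟩
  have e : algebraMap (𝓞 K) K ((ε⁻¹ : (𝓞 K)ˣ) : 𝓞 K) = (algebraMap (𝓞 K) K (ε : 𝓞 K))⁻¹ := by
    refine eq_inv_of_mul_eq_one_left ?_
    rw [← map_mul, ← Units.val_mul, inv_mul_cancel, Units.val_one, map_one]
  rw [e, map_inv₀, norm_inv] at hσ
  by_contra hcon
  push Not at hcon
  exact absurd hσ (not_lt.2 (inv_le_one_of_one_le₀ hcon))

end Pool.Agent.K6.H95.TC
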