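import Pool.Agent.K6.H95.TC.Val
import Pool.Agent.TH826.MH.Final
set_option autoImplicit false

/-!
Nonvanishing of the regulator determinant over two embeddings.
-/

namespace Pool.Agent.K6.H95.TC

open Pool.Agent.TH826.MK
open Pool.Agent.TH826.MH (wt wt_self wt_ne abs_wt_le abs_prod_wt_le ht prod_wt_eq_zero)

section weights

variable {n : ℕ} {r : Fin n → ℕ}

/-- the centres of the circles -/
def cen : Option (∀ k, Fin (r k)) → ∀ k, Option (Fin (r k + 1))
  | none, _ => none
  | some t, k => some (t k).castSucc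

/-- the leading exponents -/
noncomputable def ww (a b : Option (∀ k, Fin (r k))) : ℝ :=
  ∏ k, (wx (cen a k) (num b k) - wx (cen a k) (den b k))

theorem ww_none_none : ww (r := r) none none = 1 := by
  unfold ww wx cen num den
  simp

theorem ww_some_some (t i : ∀ k, Fin (r k)) :
    ww (some t) (some i) = ∏ k, wt (t k) (i k) := by
  unfold ww wx cen num den wt
  simp only [Option.some.injEq]

theorem ww_none_some (hn : 0 < n) (i : ∀ k, Fin (r k)) : ww none (some i) = 0 := by
  unfold ww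
  refine Finset.prod_eq_zero (Finset.mem_univ (⟨0, hn⟩ : Fin n)) ?_
  unfold wx cen num den
  simp

theorem ww_some_none (hn : 0 < n) (t : ∀ k, Fin (r k)) : ww (some t) none = 0 := by
  unfold ww
  refine Finset.prod_eq_zero (Finset.mem_univ (⟨0, hn⟩ : Fin n)) ?_
  unfold wx cen num den
  simp

/-- the height -/
def hgt : Option (∀ k, Fin (r k)) → ℕ
  | none => 0
  | some t => ht t

theorem ww_self (a : Option (∀ k, Fin (r k))) : ww a a = 1 := by
  cases a with
  | none => exact ww_none_none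
  | some t =>
    rw [ww_some_some]
    exact Finset.prod_eq_one fun k _ => wt_self (t k)

theorem ww_eq_zero (hn : 0 < n) {a b : Option (∀ k, Fin (r k))} (hne : b ≠ a)
    (hh : hgt b ≤ hgt a) : ww a b = 0 := by
  match a, b with
  | none, none => exact absurd rfl hne
  | none, some i => exact ww_none_some hn i
  | some t, none => exact ww_some_none hn t
  | some t, some i =>
    rw [ww_some_some]
    exact prod_wt_eq_zero (fun e => hne (by rw [e])) hh

theorem abs_ww_le (hn : 0 < n) (a b : Option (∀ k, Fin (r k))) : |ww a b| ≤ 1 := by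
  match a, b with
  | none, none => rw [ww_none_none, abs_one]
  | none, some i => rw [ww_none_some hn]; norm_num
  | some t, none => rw [ww_some_none hn]; norm_num
  | some t, some i => rw [ww_some_some]; exact abs_prod_wt_le t i

end weights

/-- the embedding for a class -/
def emb {K : Type*} [Field K] {ι : Type*} (σ τ : K →+* ℂ) : Option ι → (K →+* ℂ)
  | none => τ
  | some _ => σ

theorem exists_tori {K : Type*} [Field K] (σ τ : K →+* ℂ) {d : ℕ} {r : Fin (d + 1) → ℕ}
    (z : ∀ k, Fin (r k + 1) → K) (hz : ∀ k, Function.Injective (z k)) (hz0 : ∀ k i, z k i ≠ 0) :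
    ∃ C : ℝ, 1 ≤ C ∧ ∀ lam : K, lam ≠ 0 → C ≤ ‖σ lam‖ → ‖τ lam‖ ≤ C⁻¹ →
      ∃ Γ : Option (∀ k, Fin (r k)) → Torus (CRing lam z) d,
        (∀ a θ x, (Γ a).e θ (cst lam z x) = emb σ τ a x) ∧
        (Matrix.of fun a b : Option (∀ k, Fin (r k)) =>
          (Γ a).reg (symb (ent lam z b))).det ≠ 0 := by
  classical
  have hex : ∀ a : Option (∀ k, Fin (r k)), ∃ Λ B : ℝ, ∀ lam : K, lam ≠ 0 →
      Λ ≤ ‖Lg a.isSome (emb σ τ a lam)‖ → ∃ Γ : Torus (CRing lam z) d,
      (∀ θ x, Γ.e θ (cst lam z x) = emb σ τ a x) ∧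
      ∀ cl : Option (∀ k, Fin (r k)), |Γ.reg (symb (ent lam z cl)) +
        (2 * Real.pi) ^ d * Real.log ‖Lg a.isSome (emb σ τ a lam)‖ * ww a cl| ≤ B := by
    intro a
    exact exists_torus (emb σ τ a) z hz hz0 a.isSome (cen a) (by cases a <;> rfl)
  choose Λ B hΛ using hex
  set n : ℕ := Fintype.card (Option (∀ k, Fin (r k))) with hn
  set B0 : ℝ := ∑ t, |B t| with hB0
  set Λ0 : ℝ := ∑ t, |Λ t| with hΛ0
  have hB00 : 0 ≤ B0 := Finset.sum_nonneg fun t _ => abs_nonneg _
  have hBt : ∀ t, B t ≤ B0 := fun t =>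
    (le_abs_self _).trans (Finset.single_le_sum (f := fun t => |B t|) (fun t _ => abs_nonneg _)
      (Finset.mem_univ t))
  have hΛt : ∀ t, Λ t ≤ Λ0 := fun t =>
    (le_abs_self _).trans (Finset.single_le_sum (f := fun t => |Λ t|) (fun t _ => abs_nonneg _)
      (Finset.mem_univ t))
  set S : ℝ := n + n.factorial * 2 ^ n with hS
  have hS0 : 0 < S := by
    have h1 : 0 < (n.factorial : ℝ) * 2 ^ n := by
      have := Nat.factorial_pos n
      positivity
    have h2 : 0 ≤ (n : ℝ) := Nat.cast_nonneg n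
    rw [hS]
    linarith
  set δ : ℝ := 1 / (S + 1) with hδdef
  have hδ : 0 < δ := by rw [hδdef]; positivity
  have hδ1 : δ ≤ 1 := by
    rw [hδdef, div_le_one (by positivity)]
    linarith
  have hsmall : (n : ℝ) * δ + (n.factorial * 2 ^ n) * δ < 1 := by
    rw [← add_mul, ← hS, hδdef, mul_one_div, div_lt_one (by positivity)]
    linarith
  have hpi : 0 < (2 * Real.pi) ^ d := by positivity
  set E : ℝ := B0 / ((2 * Real.pi) ^ d * δ) + 1 with hE
  have hE0 : 0 < E := by positivity
  have hCpos : 0 < max Λ0 (Real.exp E) := (Real.exp_pos E).trans_le (le_max_right _ _)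
  refine ⟨max Λ0 (Real.exp E), (Real.one_le_exp hE0.le).trans (le_max_right _ _),
    fun lam hlam0 hlam1 hlam2 => ?_⟩
  have hL : ∀ a : Option (∀ k, Fin (r k)),
      max Λ0 (Real.exp E) ≤ ‖Lg a.isSome (emb σ τ a lam)‖ := by
    intro a
    cases a with
    | none =>
      show _ ≤ ‖(τ lam)⁻¹‖
      rw [norm_inv]
      have h0 : 0 < ‖τ lam‖ := norm_pos_iff.2 ((_root_.map_ne_zero τ).2 hlam0)
      rwa [le_inv_comm₀ hCpos h0]
    | some t => exact hlam1
  set LL : Option (∀ k, Fin (r k)) → ℝ := fun a => Real.log ‖Lg a.isSome (emb σ τ a lam)‖ with hLL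
  have hlog : ∀ a, E ≤ LL a := by
    intro a
    have h1 := (le_max_right Λ0 (Real.exp E)).trans (hL a)
    rw [hLL]
    simp only
    rw [Real.le_log_iff_exp_le ((Real.exp_pos E).trans_le h1)]
    exact h1
  choose Γ hΓ1 hΓ2 using fun t => hΛ t lam hlam0 ((hΛt t).trans ((le_max_left _ _).trans (hL t)))
  refine ⟨Γ, hΓ1, ?_⟩
  set D : Option (∀ k, Fin (r k)) → ℝ := fun a => (2 * Real.pi) ^ d * LL a with hD
  have hDpos : ∀ a, 0 < D a := fun a => mul_pos hpi (hE0.trans_le (hlog a))
  have hBD : ∀ a, B0 ≤ δ * D a := by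
    intro a
    have h1 : B0 / ((2 * Real.pi) ^ d * δ) ≤ LL a := by linarith [hlog a]
    rw [div_le_iff₀ (by positivity)] at h1
    calc B0 ≤ LL a * ((2 * Real.pi) ^ d * δ) := h1
      _ = δ * D a := by rw [hD]; ring
  set M : Matrix (Option (∀ k, Fin (r k))) (Option (∀ k, Fin (r k))) ℝ :=
    Matrix.of fun t i => (Γ t).reg (symb (ent lam z i)) with hM
  have hΓ3 : ∀ t i, |M t i + D t * ww t i| ≤ B0 := fun t i => (hΓ2 t i).trans (hBt t)
  have hN : (-M).det ≠ 0 := by
    refine det_ne_zero_of_near (fun i => hgt i) (B := 2) (δ := δ) le_rfl hδ hδ1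
      hsmall (-M) D hDpos (fun t => ?_) (fun t i hi hh => ?_) (fun t i _ => ?_)
    · have h1 := hΓ3 t t
      rw [ww_self, mul_one] at h1
      have h2 : (-M) t t - D t = -(M t t + D t) := by
        rw [Matrix.neg_apply]
        ring
      rw [h2, abs_neg]
      exact h1.trans (hBD t)
    · have h1 := hΓ3 t i
      rw [ww_eq_zero (Nat.succ_pos d) hi hh, mul_zero, add_zero] at h1
      rw [Matrix.neg_apply, abs_neg]
      exact h1.trans (hBD t)
    · have h1 := hΓ3 t i
      rw [Matrix.neg_apply, abs_neg]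
      have h3 : |D t * ww t i| ≤ D t := by
        rw [abs_mul, abs_of_pos (hDpos t)]
        calc D t * |ww t i| ≤ D t * 1 :=
              mul_le_mul_of_nonneg_left (abs_ww_le (Nat.succ_pos d) _ _) (hDpos t).le
          _ = D t := mul_one _
      have h4 : δ * D t ≤ 1 * D t := mul_le_mul_of_nonneg_right hδ1 (hDpos t).le
      have h5 := abs_le.1 (h1.trans (hBD t))
      have h6 := abs_le.1 h3
      rw [abs_le]
      constructor <;> linarith [h5.1, h5.2, h6.1, h6.2]
  intro h0
  apply hN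
  rw [Matrix.det_neg, h0, mul_zero]

end Pool.Agent.K6.H95.TC
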