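import Pool.Agent.TH826.MK.Variety
set_option autoImplicit false

/-!
The hypersurfaces `λ ∏_k (∏_i (x_k - ζ_{k,i}) / x_k) = 1`, `ζ_{k,i}` roots of unity, and the symbols
on them.
-/

namespace Pool.Agent.K6.H95.TC

open scoped WithZero

open Pool.Agent.TH826.MK (KQ symb Unramified unitPart)

section Ring

variable {K : Type*} [Field K] {n : ℕ} {r : Fin n → ℕ}

/-- The polynomial `y ∏_k x_k - 1` in the variables `x_k` (`some k`) and `y` (`none`). -/
noncomputable def eqA (K : Type*) [Field K] (n : ℕ) : MvPolynomial (Option (Fin n)) K :=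
  MvPolynomial.X none * ∏ k, MvPolynomial.X (some k) - 1

/-- The polynomial `λ y ∏_k ∏_i (x_k - ζ_{k,i}) - 1`, `0 ≤ i ≤ r_k`. -/
noncomputable def eqB (lam : K) (z : ∀ k, Fin (r k + 1) → K) : MvPolynomial (Option (Fin n)) K :=
  MvPolynomial.C lam * MvPolynomial.X none *
    ∏ k, ∏ i, (MvPolynomial.X (some k) - MvPolynomial.C (z k i)) - 1

/-- The coordinate ring of the hypersurface `λ ∏_k ∏_i (x_k - ζ_{k,i}) = ∏_k x_k` in the torus
`∏_k x_k ≠ 0` (the inverse of `∏_k x_k` is the variable `y`). -/
def CRing (lam : K) (z : ∀ k, Fin (r k + 1) → K) : Type _ :=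
  MvPolynomial (Option (Fin n)) K ⧸ Ideal.span {eqA K n, eqB lam z}

variable (lam : K) (z : ∀ k, Fin (r k + 1) → K)

noncomputable instance : CommRing (CRing lam z) :=
  Ideal.Quotient.commRing (Ideal.span {eqA K n, eqB lam z})

/-- The polynomials as functions on the hypersurface. -/
noncomputable def fpol : MvPolynomial (Option (Fin n)) K →+* CRing lam z :=
  Ideal.Quotient.mk (Ideal.span {eqA K n, eqB lam z})

/-- The constants. -/
noncomputable def cst : K →+* CRing lam z := (fpol lam z).comp MvPolynomial.C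

/-- The coordinate function `x_k`. -/
noncomputable def fx (k : Fin n) : CRing lam z := fpol lam z (MvPolynomial.X (some k))

theorem fpol_eqA : fpol lam z (eqA K n) = 0 :=
  Ideal.Quotient.eq_zero_iff_mem.2 (Ideal.subset_span (by simp))

theorem fpol_eqB : fpol lam z (eqB lam z) = 0 :=
  Ideal.Quotient.eq_zero_iff_mem.2 (Ideal.subset_span (by simp))

theorem prod_x : fpol lam z (MvPolynomial.X none) * ∏ k, fx lam z k = 1 := by
  have h := fpol_eqA lam z
  unfold eqA at h
  rw [map_sub, map_mul, map_one, map_prod, sub_eq_zero] at h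
  exact h

theorem prod_z : cst lam z lam * fpol lam z (MvPolynomial.X none) *
    ∏ k, ∏ i, (fx lam z k - cst lam z (z k i)) = 1 := by
  have h := fpol_eqB lam z
  unfold eqB at h
  rw [map_sub, map_mul, map_mul, map_one, map_prod, sub_eq_zero] at h
  rw [← h]
  congr 1
  refine Finset.prod_congr rfl fun k _ => ?_
  rw [map_prod]
  refine Finset.prod_congr rfl fun i _ => ?_
  rw [map_sub]
  rfl

theorem isUnit_x (k : Fin n) : IsUnit (fx lam z k) := by
  refine isUnit_of_dvd_one ?_
  rw [← prod_x lam z]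
  refine Dvd.dvd.mul_left ?_ _
  exact Finset.dvd_prod_of_mem (fun k => fx lam z k) (Finset.mem_univ k)

theorem isUnit_z (k : Fin n) (i : Fin (r k + 1)) : IsUnit (fx lam z k - cst lam z (z k i)) := by
  refine isUnit_of_dvd_one ?_
  rw [← prod_z lam z]
  refine Dvd.dvd.mul_left ?_ _
  exact (Finset.dvd_prod_of_mem (fun i => fx lam z k - cst lam z (z k i))
    (Finset.mem_univ i)).trans
    (Finset.dvd_prod_of_mem (fun k => ∏ i, (fx lam z k - cst lam z (z k i))) (Finset.mem_univ k))

/-- The unit `x_k`. -/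
noncomputable def ux (k : Fin n) : (CRing lam z)ˣ := (isUnit_x lam z k).unit

/-- The unit `x_k - ζ_{k,i}`. -/
noncomputable def uz (k : Fin n) (i : Fin (r k + 1)) : (CRing lam z)ˣ := (isUnit_z lam z k i).unit

theorem coe_ux (k : Fin n) : (ux lam z k : CRing lam z) = fx lam z k := rfl

theorem coe_uz (k : Fin n) (i : Fin (r k + 1)) :
    (uz lam z k i : CRing lam z) = fx lam z k - cst lam z (z k i) := rfl

/-- The entries of the symbols: for `none` the coordinates `x_k`, for `some i` the functions
`(x_k - ζ_{k,i_k}) / (x_k - ζ_{k,i_k+1})`. -/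
noncomputable def ent : Option (∀ k, Fin (r k)) → Fin n → (CRing lam z)ˣ
  | none, k => ux lam z k
  | some i, k => uz lam z k (i k).castSucc / uz lam z k (i k).succ

end Ring

section val

variable {L : Type*} [Field L] (v : Valuation L ℤᵐ⁰)

theorem v_root {a : L} {m : ℕ} (hm : m ≠ 0) (h : a ^ m = 1) : v a = 1 := by
  have h1 : v a ^ m = 1 := by rw [← map_pow, h, map_one]
  exact (pow_eq_one_iff_of_nonneg zero_le hm).1 h1

theorem v_pow_sub_le {p q : L} (hp : v p ≤ 1) (hq : v q ≤ 1) (m : ℕ) :
    v (p ^ m - q ^ m) ≤ v (p - q) := by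
  induction m with
  | zero => simp
  | succ m ih =>
    have e : p ^ (m + 1) - q ^ (m + 1) = p * (p ^ m - q ^ m) + q ^ m * (p - q) := by ring
    rw [e]
    refine (v.map_add _ _).trans (max_le ?_ ?_)
    · rw [map_mul]
      calc v p * v (p ^ m - q ^ m) ≤ 1 * v (p ^ m - q ^ m) := mul_le_mul_left hp _
        _ ≤ _ := by rw [one_mul]; exact ih
    · rw [map_mul]
      calc v (q ^ m) * v (p - q) ≤ 1 * v (p - q) := by
            refine mul_le_mul_left ?_ _
            rw [map_pow]
            exact pow_le_one' hq m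
        _ = _ := one_mul _

/-- the ratio of two functions `x - a` at a place where `x` vanishes -/
theorem v_ratio_small {x a b : L} {m : ℕ} (hm : m ≠ 0) (ha : a ^ m = 1) (hb : b ^ m = 1)
    (hx : v x < 1) (hxb : x - b ≠ 0) : v (((x - a) / (x - b)) ^ m - 1) < 1 := by
  have va : v a = 1 := v_root v hm ha
  have vb : v b = 1 := v_root v hm hb
  have hb1 : v (x - b) = 1 := by
    rw [Valuation.map_sub_swap, Valuation.map_sub_eq_of_lt_left v (by rw [vb]; exact hx), vb]
  have ha1 : v (x - a) ≤ 1 := (v.map_sub _ _).trans (max_le hx.le va.le)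
  rw [div_pow, div_sub_one (pow_ne_zero m hxb), map_div₀, map_pow, hb1, one_pow, div_one]
  have e : (x - a) ^ m - (x - b) ^ m = ((x - a) ^ m - (-a) ^ m) - ((x - b) ^ m - (-b) ^ m) := by
    rw [neg_pow a, neg_pow b, ha, hb]
    ring
  rw [e]
  refine (v.map_sub _ _).trans_lt (max_lt ?_ ?_)
  · refine (v_pow_sub_le v ha1 (by rw [Valuation.map_neg, va]) m).trans_lt ?_
    rw [sub_neg_eq_add, sub_add_cancel]
    exact hx
  · refine (v_pow_sub_le v hb1.le (by rw [Valuation.map_neg, vb]) m).trans_lt ?_
    rw [sub_neg_eq_add, sub_add_cancel]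
    exact hx

end val

section Unram

variable {K : Type*} [Field K] {n : ℕ} {r : Fin n → ℕ} {lam : K} {z : ∀ k, Fin (r k + 1) → K}
  {L : Type*} [Field L] (f : CRing lam z →+* L)

/-- the image of `x_k` -/
noncomputable def xL (k : Fin n) : L := f (fx lam z k)

/-- the image of a constant -/
noncomputable def cL : K →+* L := f.comp (cst lam z)

theorem xL_ne (k : Fin n) : xL f k ≠ 0 := ((isUnit_x lam z k).map f).ne_zero

theorem zL_ne (k : Fin n) (i : Fin (r k + 1)) : xL f k - cL f (z k i) ≠ 0 := by
  have := ((isUnit_z lam z k i).map f).ne_zero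
  rwa [map_sub] at this

/-- the functions `F_k` -/
noncomputable def FL (k : Fin n) : L := (∏ i, (xL f k - cL f (z k i))) / xL f k

theorem prod_FL : cL f lam * ∏ k, FL f k = 1 := by
  have h1 := congrArg f (prod_x lam z)
  have h2 := congrArg f (prod_z lam z)
  simp only [map_mul, map_prod, map_one, map_sub] at h1 h2
  unfold FL
  rw [Finset.prod_div_distrib, div_eq_mul_inv]
  have h3 : (∏ k, xL f k)⁻¹ = f (fpol lam z (MvPolynomial.X none)) := by
    have h0 : ∏ k, xL f k ≠ 0 := Finset.prod_ne_zero_iff.2 fun k _ => xL_ne f k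
    rw [inv_eq_iff_eq_inv]
    exact eq_inv_of_mul_eq_one_right h1
  rw [h3]
  unfold cL xL
  simp only [RingHom.comp_apply]
  linear_combination h2

theorem map_ent_none (k : Fin n) :
    ((Units.map (f : CRing lam z →* L) (ent lam z none k) : Lˣ) : L) = xL f k := rfl

theorem map_ent_some (i : ∀ k, Fin (r k)) (k : Fin n) :
    ((Units.map (f : CRing lam z →* L) (ent lam z (some i) k) : Lˣ) : L) =
      (xL f k - cL f (z k (i k).castSucc)) / (xL f k - cL f (z k (i k).succ)) := by
  have h : ent lam z (some i) k = uz lam z k (i k).castSucc / uz lam z k (i k).succ := rfl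
  have e : ∀ j, ((Units.map (f : CRing lam z →* L) (uz lam z k j) : Lˣ) : L) =
      xL f k - cL f (z k j) := by
    intro j
    show f (fx lam z k - cst lam z (z k j)) = _
    rw [map_sub]
    rfl
  rw [h, map_div, Units.val_div_eq_div_val, e, e]

/-- Data for the unramifiedness. -/
structure Arith (lam : K) (z : ∀ k, Fin (r k + 1) → K) : Prop where
  pos : ∀ k, 1 ≤ r k
  int : IsIntegral ℤ lam
  inv : IsIntegral ℤ lam⁻¹
  ne : lam ≠ 0
  root : ∀ k i, ∃ m : ℕ, m ≠ 0 ∧ z k i ^ m = 1

variable (v : Valuation L ℤᵐ⁰) (h : Arith lam z)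
include h

theorem v_cL (k : Fin n) (i : Fin (r k + 1)) : v (cL f (z k i)) = 1 := by
  obtain ⟨m, hm, h1⟩ := h.root k i
  exact v_root v hm (by rw [← map_pow, h1, map_one])

theorem v_lam : v (cL f lam) = 1 := by
  have h1 : v (cL f lam) ≤ 1 :=
    Pool.Agent.TH826.MK.val_le_one_of_integral v (map_isIntegral_int _ h.int)
  have h2 : v (cL f lam⁻¹) ≤ 1 :=
    Pool.Agent.TH826.MK.val_le_one_of_integral v (map_isIntegral_int _ h.inv)
  rw [map_inv₀, map_inv₀] at h2
  have h0 : 0 < v (cL f lam) := zero_lt_iff.2 ((Valuation.ne_zero_iff v).2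
    ((_root_.map_ne_zero _).2 h.ne))
  exact le_antisymm h1 ((inv_le_one₀ h0).1 h2)

theorem v_sub_le {k : Fin n} (hx : v (xL f k) ≤ 1) (i : Fin (r k + 1)) :
    v (xL f k - cL f (z k i)) ≤ 1 :=
  (v.map_sub _ _).trans (max_le hx (v_cL f v h k i).le)

theorem v_FL_of_lt {k : Fin n} (hx : v (xL f k) < 1) : 1 < v (FL f k) := by
  have h1 : ∀ i, v (xL f k - cL f (z k i)) = 1 := by
    intro i
    rw [Valuation.map_sub_swap, Valuation.map_sub_eq_of_lt_left v (by rw [v_cL f v h]; exact hx),
      v_cL f v h]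
  unfold FL
  rw [map_div₀, map_prod, Finset.prod_congr rfl fun i _ => h1 i, Finset.prod_const_one, one_div]
  have h0 : 0 < v (xL f k) := zero_lt_iff.2 ((Valuation.ne_zero_iff v).2 (xL_ne f k))
  exact (one_lt_inv₀ h0).2 hx

theorem v_FL_of_gt {k : Fin n} (hx : 1 < v (xL f k)) : 1 < v (FL f k) := by
  have h1 : ∀ i, v (xL f k - cL f (z k i)) = v (xL f k) := by
    intro i
    exact Valuation.map_sub_eq_of_lt_left v (by rw [v_cL f v h]; exact hx)
  unfold FL
  rw [map_div₀, map_prod, Finset.prod_congr rfl fun i _ => h1 i, Finset.prod_const,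
    Finset.card_univ, Fintype.card_fin, pow_succ, mul_div_cancel_right₀]
  · exact one_lt_pow₀ hx (by have := h.pos k; omega)
  · exact (Valuation.ne_zero_iff v).2 (xL_ne f k)

theorem v_xL_of_FL {k : Fin n} (hx : v (FL f k) ≤ 1) : v (xL f k) = 1 := by
  rcases lt_trichotomy (v (xL f k)) 1 with h1 | h1 | h1
  · exact absurd (v_FL_of_lt f v h h1) (not_lt.2 hx)
  · exact h1
  · exact absurd (v_FL_of_gt f v h h1) (not_lt.2 hx)

theorem symb_mem_unitPart (c : Option (∀ k, Fin (r k))) :
    symb (fun l => Units.map (f : CRing lam z →* L) (ent lam z c l)) ∈ unitPart v n := by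
  have hprod : ∏ k, v (FL f k) = 1 := by
    have h1 := congrArg v (prod_FL f)
    rwa [map_mul, map_one, v_lam f v h, one_mul, map_prod] at h1
  have hpos : ∀ k, 0 < v (FL f k) := by
    intro k
    have h0 : FL f k ≠ 0 :=
      div_ne_zero (Finset.prod_ne_zero_iff.2 fun i _ => zL_ne f k i) (xL_ne f k)
    exact zero_lt_iff.2 ((Valuation.ne_zero_iff v).2 h0)
  by_cases hall : ∀ k, v (FL f k) = 1
  · -- all entries are units
    have hx : ∀ k, v (xL f k) = 1 := fun k => v_xL_of_FL f v h (hall k).le
    have hz : ∀ k i, v (xL f k - cL f (z k i)) = 1 := by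
      intro k i
      refine le_antisymm (v_sub_le f v h (hx k).le i) ?_
      have h1 := hall k
      unfold FL at h1
      rw [map_div₀, hx k, div_one, map_prod, ← Finset.mul_prod_erase _ _ (Finset.mem_univ i)] at h1
      rw [← h1]
      have h2 : ∏ j ∈ Finset.univ.erase i, v (xL f k - cL f (z k j)) ≤ 1 :=
        Finset.prod_le_one' fun j _ => v_sub_le f v h (hx k).le j
      calc v (xL f k - cL f (z k i)) * ∏ j ∈ Finset.univ.erase i, v (xL f k - cL f (z k j)) ≤
          v (xL f k - cL f (z k i)) * 1 := mul_le_mul_right h2 _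
        _ = _ := mul_one _
    refine Submodule.subset_span ⟨_, fun l => ?_, rfl⟩
    cases c with
    | none => rw [map_ent_none]; exact hx l
    | some i => rw [map_ent_some, map_div₀, hz, hz, div_one]
  · push Not at hall
    obtain ⟨k0, hk0⟩ := hall
    cases c with
    | none =>
      -- some `F_k` vanishes
      obtain ⟨k, hk⟩ : ∃ k, v (FL f k) < 1 := by
        by_contra hcon
        push Not at hcon
        have h1 : 1 < v (FL f k0) := lt_of_le_of_ne (hcon k0) (Ne.symm hk0)
        have h2 : 1 < ∏ k, v (FL f k) := by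
          rw [← Finset.mul_prod_erase _ _ (Finset.mem_univ k0)]
          refine lt_of_lt_of_le h1 ?_
          have h3 : 1 ≤ ∏ j ∈ Finset.univ.erase k0, v (FL f j) :=
            Finset.one_le_prod' fun j _ => hcon j
          calc v (FL f k0) = v (FL f k0) * 1 := (mul_one _).symm
            _ ≤ _ := mul_le_mul_right h3 _
        rw [hprod] at h2
        exact lt_irrefl _ h2
      have hx : v (xL f k) = 1 := v_xL_of_FL f v h hk.le
      obtain ⟨i, hi⟩ : ∃ i, v (xL f k - cL f (z k i)) < 1 := by
        by_contra hcon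
        push Not at hcon
        have h1 : 1 ≤ v (FL f k) := by
          unfold FL
          rw [map_div₀, hx, div_one, map_prod]
          exact Finset.one_le_prod' fun j _ => hcon j
        exact absurd hk (not_lt.2 h1)
      obtain ⟨m, hm, hm1⟩ := h.root k i
      refine Pool.Agent.TH826.MK.mem_unitPart_of_pow v k _ hm ?_
      rw [map_ent_none]
      have h2 : (1 : L) = cL f (z k i) ^ m := by rw [← map_pow, hm1, map_one]
      rw [h2]
      exact (v_pow_sub_le v hx.le (v_cL f v h k i).le m).trans_lt hi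
    | some j =>
      -- some `F_k` has a pole
      obtain ⟨k, hk⟩ : ∃ k, 1 < v (FL f k) := by
        by_contra hcon
        push Not at hcon
        have h1 : v (FL f k0) < 1 := lt_of_le_of_ne (hcon k0) hk0
        have h2 : ∏ k, v (FL f k) < 1 := by
          rw [← Finset.mul_prod_erase _ _ (Finset.mem_univ k0)]
          refine lt_of_le_of_lt ?_ h1
          have h3 : ∏ j ∈ Finset.univ.erase k0, v (FL f j) ≤ 1 :=
            Finset.prod_le_one' fun j _ => hcon j
          calc _ ≤ v (FL f k0) * 1 := mul_le_mul_right h3 _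
            _ = _ := mul_one _
        rw [hprod] at h2
        exact lt_irrefl _ h2
      rcases lt_trichotomy (v (xL f k)) 1 with h1 | h1 | h1
      · obtain ⟨m1, hm1, hr1⟩ := h.root k (j k).castSucc
        obtain ⟨m2, hm2, hr2⟩ := h.root k (j k).succ
        refine Pool.Agent.TH826.MK.mem_unitPart_of_pow v k _ (mul_ne_zero hm1 hm2) ?_
        rw [map_ent_some]
        refine v_ratio_small v (mul_ne_zero hm1 hm2) ?_ ?_ h1 (zL_ne f k _)
        · rw [← map_pow, pow_mul, hr1, one_pow, map_one]
        · rw [← map_pow, mul_comm, pow_mul, hr2, one_pow, map_one]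
      · exfalso
        have h2 : v (FL f k) ≤ 1 := by
          unfold FL
          rw [map_div₀, h1, div_one, map_prod]
          exact Finset.prod_le_one' fun j _ => v_sub_le f v h h1.le j
        exact absurd hk (not_lt.2 h2)
      · refine Pool.Agent.TH826.MK.mem_unitPart_of_oneUnit' v k _ ?_
        rw [map_ent_some, div_sub_one (zL_ne f k _), map_div₀]
        have h2 : v (xL f k - cL f (z k (j k).succ)) = v (xL f k) :=
          Valuation.map_sub_eq_of_lt_left v (by rw [v_cL f v h]; exact h1)
        have h3 : v (xL f k - cL f (z k (j k).castSucc) - (xL f k - cL f (z k (j k).succ))) ≤ 1 := by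
          have e : xL f k - cL f (z k (j k).castSucc) - (xL f k - cL f (z k (j k).succ)) =
            cL f (z k (j k).succ) - cL f (z k (j k).castSucc) := by ring
          rw [e]
          exact (v.map_sub _ _).trans (max_le (v_cL f v h _ _).le (v_cL f v h _ _).le)
        rw [h2, div_lt_one₀ (zero_lt_one.trans h1)]
        exact h3.trans_lt h1

omit v in
theorem symb_mem_unramified (c : Option (∀ k, Fin (r k))) :
    KQ.map n f (symb (ent lam z c)) ∈ Unramified L n := by
  rw [KQ.map_symb]
  unfold Unramified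
  simp only [Submodule.mem_iInf]
  intro v _
  exact symb_mem_unitPart f v h c

end Unram

end Pool.Agent.K6.H95.TC
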