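import Pool.Agent.K6.H95.TC.Ring
import Pool.Agent.TH826.MH.Smooth
set_option autoImplicit false

/-!
The hypersurfaces `λ ∏_k ∏_i (x_k - ζ_{k,i}) = ∏_k x_k` are smooth in the torus for large and for
small `λ`.
-/

namespace Pool.Agent.K6.H95.TC

open Polynomial
open Pool.Agent.TH826.MH (qq eval_aeval eqn_eq pderiv_eqn)

section

variable {K : Type*} [Field K] {n : ℕ} {r : Fin n → ℕ}

/-- The polynomial `λ ∏_k ∏_i (x_k - ζ_{k,i}) - ∏_k x_k`. -/
noncomputable def heqn (lam : K) (z : ∀ k, Fin (r k + 1) → K) : MvPolynomial (Fin n) K :=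
  MvPolynomial.C lam * ∏ k, ∏ i, (MvPolynomial.X k - MvPolynomial.C (z k i)) -
    ∏ k, MvPolynomial.X k

theorem heqn_eq (lam : K) (z : ∀ k, Fin (r k + 1) → K) :
    heqn lam z = Pool.Agent.TH826.MH.eqn lam z + 1 - ∏ k, MvPolynomial.X k := by
  unfold heqn Pool.Agent.TH826.MH.eqn
  ring

theorem pderiv_prod_X (k : Fin n) :
    MvPolynomial.pderiv k (∏ l, (MvPolynomial.X l : MvPolynomial (Fin n) K)) =
      ∏ l ∈ Finset.univ.erase k, MvPolynomial.X l := by
  have h0 : MvPolynomial.pderiv k (∏ l ∈ Finset.univ.erase k,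
      (MvPolynomial.X l : MvPolynomial (Fin n) K)) = 0 := by
    refine Finset.prod_induction _ (fun p => MvPolynomial.pderiv k p = 0) ?_ ?_ ?_
    · intro p q hp hq
      rw [Derivation.leibniz, hp, hq, smul_zero, smul_zero, add_zero]
    · exact Derivation.map_one_eq_zero _
    · intro l hl
      exact MvPolynomial.pderiv_X_of_ne (Finset.ne_of_mem_erase hl)
  rw [← Finset.mul_prod_erase Finset.univ _ (Finset.mem_univ k), Derivation.leibniz, h0,
    smul_zero, zero_add, MvPolynomial.pderiv_X_self, smul_eq_mul, mul_one]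

/-- the critical values of `∏_i (x - β_i) / x` -/
theorem exists_crit' {m : ℕ} (hm : 1 ≤ m) (β : Fin (m + 1) → ℂ) (hβ : Function.Injective β) :
    ∃ M : ℝ, 1 ≤ M ∧ ∀ c : ℂ, c ≠ 0 → c * (derivative (qq β)).eval c = (qq β).eval c →
      M⁻¹ ≤ ‖(qq β).eval c / c‖ ∧ ‖(qq β).eval c / c‖ ≤ M := by
  classical
  have hmon : (qq β).Monic := monic_prod_of_monic _ _ fun i _ => monic_X_sub_C _
  have hdeg : (qq β).natDegree = m + 1 := by
    unfold qq
    rw [natDegree_prod_of_monic _ _ fun i _ => monic_X_sub_C _]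
    simp
  set q : ℂ[X] := X * derivative (qq β) - qq β with hq
  have hq0 : q ≠ 0 := by
    intro h
    have h1 := congrArg (fun p => p.coeff (m + 1)) h
    simp only [hq, coeff_sub, coeff_X_mul, coeff_derivative, coeff_zero] at h1
    have h2 : (qq β).coeff (m + 1) = 1 := by
      have := hmon.coeff_natDegree
      rwa [hdeg] at this
    rw [h2, one_mul, add_sub_cancel_right] at h1
    have h3 : (m : ℂ) ≠ 0 := by exact_mod_cast (by omega : m ≠ 0)
    exact h3 h1
  have hpos : ∀ c : ℂ, c ≠ 0 → c * (derivative (qq β)).eval c = (qq β).eval c →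
      0 < ‖(qq β).eval c / c‖ := by
    intro c hc0 hc
    rw [norm_pos_iff]
    refine div_ne_zero ?_ hc0
    intro h0
    rw [h0] at hc
    have hd : (derivative (qq β)).eval c = 0 := (mul_eq_zero.1 hc).resolve_left hc0
    have h1 : ∏ i, (c - β i) = 0 := by
      have := h0
      unfold qq at this
      rw [eval_prod] at this
      simpa using this
    obtain ⟨i, -, hi⟩ := Finset.prod_eq_zero_iff.1 h1
    have hsplit : qq β = (X - C (β i)) * ∏ j ∈ Finset.univ.erase i, (X - C (β j)) :=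
      (Finset.mul_prod_erase _ _ (Finset.mem_univ i)).symm
    rw [hsplit, derivative_mul, eval_add, eval_mul, eval_mul] at hd
    have hci : c = β i := sub_eq_zero.1 hi
    rw [derivative_sub, derivative_X, derivative_C, sub_zero, eval_one, one_mul, eval_sub, eval_X,
      eval_C, hci, sub_self, zero_mul, add_zero, eval_prod] at hd
    obtain ⟨j, hj, hj0⟩ := Finset.prod_eq_zero_iff.1 hd
    rw [eval_sub, eval_X, eval_C, sub_eq_zero] at hj0
    exact (Finset.ne_of_mem_erase hj) (hβ hj0).symm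
  set S : Finset ℂ := q.roots.toFinset with hS
  set F : ℂ → ℝ := fun c => ‖(qq β).eval c / c‖ with hF
  have hF0 : ∀ c, 0 ≤ F c + (F c)⁻¹ := fun c => by
    have : 0 ≤ F c := norm_nonneg _
    positivity
  refine ⟨1 + ∑ c ∈ S, (F c + (F c)⁻¹), ?_, fun c hc0 hc => ?_⟩
  · have := Finset.sum_nonneg (s := S) fun c _ => hF0 c
    linarith
  · have hcS : c ∈ S := by
      rw [hS, Multiset.mem_toFinset, mem_roots hq0, IsRoot.def, hq, eval_sub, eval_mul, eval_X,
        hc, sub_self]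
    have h1 := Finset.single_le_sum (f := fun c => F c + (F c)⁻¹) (fun c _ => hF0 c) hcS
    have h2 := hpos c hc0 hc
    have h3 : 0 < F c := h2
    have h4 : 0 < (F c)⁻¹ := inv_pos.2 h3
    constructor
    · show _ ≤ F c
      rw [inv_le_comm₀ (by linarith) h3]
      linarith
    · show F c ≤ _
      linarith

theorem exists_smooth (σ : K →+* ℂ) (hr : ∀ k, 1 ≤ r k) (z : ∀ k, Fin (r k + 1) → K)
    (hz : ∀ k, Function.Injective (z k)) :
    ∃ c : ℝ, 1 ≤ c ∧ ∀ lam : K, lam ≠ 0 → (c ≤ ‖σ lam‖ ∨ ‖σ lam‖ ≤ c⁻¹) → ∀ x : Fin n → ℂ,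
      (∀ k, x k ≠ 0) → MvPolynomial.eval₂ σ x (heqn lam z) = 0 →
      ∃ k, MvPolynomial.eval₂ σ x (MvPolynomial.pderiv k (heqn lam z)) ≠ 0 := by
  have hβ : ∀ k, Function.Injective fun i => σ (z k i) := fun k => σ.injective.comp (hz k)
  choose M hM1 hM using fun k => exists_crit' (hr k) _ (hβ k)
  have hmap : ∀ k, (qq (z k)).map σ = qq fun i => σ (z k i) := by
    intro k
    unfold qq
    rw [Polynomial.map_prod]
    refine Finset.prod_congr rfl fun i _ => ?_
    rw [Polynomial.map_sub, map_X, map_C]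
  have hP1 : 1 ≤ ∏ k, M k := by
    have : ∏ k : Fin n, (1 : ℝ) ≤ ∏ k, M k :=
      Finset.prod_le_prod (fun k _ => zero_le_one) fun k _ => hM1 k
    rwa [Finset.prod_const_one] at this
  set P : ℝ := ∏ k, M k with hP
  refine ⟨P + 1, by linarith, fun lam hlam0 hlam x hx0 hx => ?_⟩
  have hprodx : ∏ k, x k ≠ 0 := Finset.prod_ne_zero_iff.2 fun k _ => hx0 k
  have hσ0 : σ lam ≠ 0 := (_root_.map_ne_zero σ).2 hlam0
  have hprodq : ∀ k : Fin n, (∏ l, (qq (z l)).eval₂ σ (x l)) = (qq (z k)).eval₂ σ (x k) *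
      ∏ l ∈ Finset.univ.erase k, (qq (z l)).eval₂ σ (x l) := fun k =>
    (Finset.mul_prod_erase _ _ (Finset.mem_univ k)).symm
  have h1 : σ lam * ∏ k, (qq (z k)).eval₂ σ (x k) = ∏ k, x k := by
    unfold heqn at hx
    rw [MvPolynomial.eval₂_sub, MvPolynomial.eval₂_mul, MvPolynomial.eval₂_C,
      MvPolynomial.eval₂_prod, MvPolynomial.eval₂_prod, sub_eq_zero] at hx
    simp only [MvPolynomial.eval₂_X] at hx
    rw [← hx]
    congr 1
    refine Finset.prod_congr rfl fun k _ => ?_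
    unfold qq
    rw [Polynomial.eval₂_finsetProd, MvPolynomial.eval₂_prod]
    refine Finset.prod_congr rfl fun i _ => ?_
    rw [Polynomial.eval₂_sub, Polynomial.eval₂_X, Polynomial.eval₂_C, MvPolynomial.eval₂_sub,
      MvPolynomial.eval₂_X, MvPolynomial.eval₂_C]
  by_contra hcon
  push Not at hcon
  have hcrit : ∀ k, x k * (derivative (qq (z k))).eval₂ σ (x k) = (qq (z k)).eval₂ σ (x k) := by
    intro k
    have h2 := hcon k
    rw [heqn_eq, map_sub, map_add, Derivation.map_one_eq_zero, add_zero, pderiv_prod_X,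
      pderiv_eqn, MvPolynomial.eval₂_sub, MvPolynomial.eval₂_mul, MvPolynomial.eval₂_mul,
      MvPolynomial.eval₂_C, eval_aeval, MvPolynomial.eval₂_prod, MvPolynomial.eval₂_prod] at h2
    simp only [eval_aeval, MvPolynomial.eval₂_X] at h2
    have h3 : ∏ l ∈ Finset.univ.erase k, (qq (z l)).eval₂ σ (x l) ≠ 0 := by
      intro h0
      rw [hprodq k, h0, mul_zero, mul_zero] at h1
      exact hprodx h1.symm
    have h4 : (∏ l, x l) = x k * ∏ l ∈ Finset.univ.erase k, x l :=
      (Finset.mul_prod_erase _ _ (Finset.mem_univ k)).symm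
    have h5 : σ lam * (∏ l ∈ Finset.univ.erase k, (qq (z l)).eval₂ σ (x l)) *
        (x k * (derivative (qq (z k))).eval₂ σ (x k) - (qq (z k)).eval₂ σ (x k)) = 0 := by
      rw [hprodq k, h4] at h1
      linear_combination x k * h2 - h1
    rcases mul_eq_zero.1 h5 with h6 | h6
    · exact absurd h6 (mul_ne_zero hσ0 h3)
    · exact sub_eq_zero.1 h6
  have hge : ∀ k, (M k)⁻¹ ≤ ‖(qq (z k)).eval₂ σ (x k) / x k‖ ∧
      ‖(qq (z k)).eval₂ σ (x k) / x k‖ ≤ M k := by
    intro k
    have h2 := hcrit k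
    rw [← eval_map, ← eval_map, ← derivative_map, hmap] at h2
    rw [← eval_map, hmap]
    exact hM k (x k) (hx0 k) h2
  have h6 : ‖σ lam‖ * ∏ k, ‖(qq (z k)).eval₂ σ (x k) / x k‖ = 1 := by
    rw [← norm_prod, ← norm_mul, Finset.prod_div_distrib, mul_div_assoc', h1,
      div_self hprodx, norm_one]
  have hup : ∏ k, ‖(qq (z k)).eval₂ σ (x k) / x k‖ ≤ P :=
    Finset.prod_le_prod (fun k _ => norm_nonneg _) fun k _ => (hge k).2
  have hlo : P⁻¹ ≤ ∏ k, ‖(qq (z k)).eval₂ σ (x k) / x k‖ := by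
    rw [hP, ← Finset.prod_inv_distrib]
    exact Finset.prod_le_prod (fun k _ => inv_nonneg.2 (by linarith [hM1 k])) fun k _ => (hge k).1
  have hPpos : 0 < P := by linarith
  rcases hlam with h7 | h7
  · have h8 : (P + 1) * P⁻¹ ≤ 1 := by
      refine le_trans ?_ h6.le
      exact mul_le_mul h7 hlo (by positivity) (norm_nonneg _)
    have h9 : (P + 1) * P⁻¹ = 1 + P⁻¹ := by
      field_simp
    rw [h9] at h8
    have : 0 < P⁻¹ := inv_pos.2 hPpos
    linarith
  · have h8 : 1 ≤ (P + 1)⁻¹ * P := by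
      refine h6.ge.trans ?_
      exact mul_le_mul h7 hup (Finset.prod_nonneg fun k _ => norm_nonneg _) (by positivity)
    rw [inv_mul_eq_div, le_div_iff₀ (by linarith)] at h8
    linarith

end

end Pool.Agent.K6.H95.TC
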