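import Pool.Agent.K6.H95.TC.Ring
import Pool.Agent.TH826.MH.Val
set_option autoImplicit false

/-!
Tori in the hypersurfaces `λ ∏_k (∏_i (x_k - ζ_{k,i}) / x_k) = 1`, and branches of inverse functions.
-/

namespace Pool.Agent.K6.H95.TC

open Pool.Agent.TH826.MK (Torus Good Per One vf circ)
open Pool.Agent.TH826.MH (Nice exists_nice)
open Filter Topology

section branch

theorem exists_branch' {ι : Type*} [Finite ι] {a : ℂ} {h : ℂ → ℂ} (hh : AnalyticAt ℂ h a)
    (h0 : h a ≠ 0) (α : ι → ℂ) :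
    ∃ (G : ℂ → ℂ) (g : ι → ℂ → ℂ) (δ C : ℝ), 0 < δ ∧
      (∀ w, ‖w‖ < δ → AnalyticAt ℂ G w ∧ (G w - a) * h (G w) = w ∧
        ∀ i, (α i = a → G w - α i = w * g i w) ∧ (α i ≠ a → G w - α i = g i w)) ∧
      ∀ i, Nice δ C (g i) := by
  classical
  have := Fintype.ofFinite ι
  set q : ℂ → ℂ := fun x => (x - a) * h x with hq
  have hqa : AnalyticAt ℂ q a := (analyticAt_id.sub analyticAt_const).mul hh
  have hq0 : q a = 0 := by simp [hq]
  have hqd : deriv q a ≠ 0 := by
    have h1 : HasDerivAt q (1 * h a + (a - a) * deriv h a) a :=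
      ((hasDerivAt_id a).sub_const a).mul hh.differentiableAt.hasDerivAt
    rw [h1.deriv, sub_self, zero_mul, add_zero, one_mul]
    exact h0
  set G : ℂ → ℂ := hqa.hasStrictDerivAt.localInverse _ _ _ hqd with hG
  have hGa : AnalyticAt ℂ G 0 := by
    have := hqa.analyticAt_localInverse hqd
    rwa [hq0] at this
  have hG0 : G 0 = a := by
    have : G (q a) = a := HasStrictFDerivAt.localInverse_apply_image ..
    rwa [hq0] at this
  have hGr : ∀ᶠ w in 𝓝 (0 : ℂ), q (G w) = w := by
    have := hqa.hasStrictDerivAt.eventually_right_inverse hqd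
    rwa [hq0] at this
  have hhG : AnalyticAt ℂ (fun w => h (G w)) 0 := by
    refine AnalyticAt.comp (g := h) (f := G) ?_ hGa
    rw [hG0]
    exact hh
  have hhG0 : h (G 0) ≠ 0 := by rw [hG0]; exact h0
  set g : ι → ℂ → ℂ := fun i w => if α i = a then (h (G w))⁻¹ else G w - α i with hg
  have hga : ∀ i, AnalyticAt ℂ (g i) 0 ∧ g i 0 ≠ 0 := by
    intro i
    by_cases h : α i = a
    · simp only [hg, h, if_true]
      exact ⟨hhG.inv hhG0, inv_ne_zero hhG0⟩
    · simp only [hg, h, if_false]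
      refine ⟨hGa.sub analyticAt_const, ?_⟩
      rw [hG0, sub_ne_zero]
      exact fun e => h e.symm
  choose C hC using fun i => exists_nice (hga i).1 (hga i).2
  have hall := (hGa.eventually_analyticAt.and (hGr.and ((eventually_all.2 hC))))
  have hne2 : ∀ᶠ w in 𝓝 (0 : ℂ), h (G w) ≠ 0 := hhG.continuousAt.eventually_ne hhG0
  obtain ⟨δ, hδ, hball⟩ := Metric.eventually_nhds_iff.1 (hall.and hne2)
  have hCle : ∀ i, C i ≤ ∑ j, |C j| := fun i =>
    (le_abs_self _).trans (Finset.single_le_sum (f := fun j => |C j|)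
      (fun j _ => abs_nonneg _) (Finset.mem_univ i))
  refine ⟨G, g, δ, ∑ j, |C j|, hδ, fun w hw => ?_, fun i w hw => ?_⟩
  · obtain ⟨⟨h1, h2, h3⟩, h4⟩ := hball (y := w) (by rwa [dist_zero_right])
    refine ⟨h1, h2, fun i => ⟨fun h => ?_, fun h => ?_⟩⟩
    · simp only [hg, h, if_true]
      rw [eq_mul_inv_iff_mul_eq₀ h4]
      exact h2
    · simp only [hg, h, if_false]
  · obtain ⟨⟨h1, h2, h3⟩, h4⟩ := hball (y := w) (by rwa [dist_zero_right])
    obtain ⟨a1, a2, a3, a4⟩ := h3 i
    exact ⟨a1, a2, a3.trans (hCle i), a4.trans (hCle i)⟩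

end branch

section Ev

variable {K : Type*} [Field K] {n d : ℕ} {r : Fin n → ℕ} {σ : K →+* ℂ} {lam : K}
  {z : ∀ k, Fin (r k + 1) → K}

/-- the complex points -/
structure GoodPt (σ : K →+* ℂ) (lam : K) (z : ∀ k, Fin (r k + 1) → K) (x : Fin n → ℂ) : Prop where
  ne : ∀ k, x k ≠ 0
  eq : σ lam * ∏ k, ((∏ i, (x k - σ (z k i))) / x k) = 1

/-- the values of the variables -/
noncomputable def vals (x : Fin n → ℂ) : Option (Fin n) → ℂ := fun o => o.elim (∏ k, x k)⁻¹ x

theorem GoodPt.prod_ne {x : Fin n → ℂ} (hx : GoodPt σ lam z x) : ∏ k, x k ≠ 0 :=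
  Finset.prod_ne_zero_iff.2 fun k _ => hx.ne k

theorem GoodPt.evalA {x : Fin n → ℂ} (hx : GoodPt σ lam z x) :
    MvPolynomial.eval₂Hom σ (vals x) (eqA K n) = 0 := by
  unfold eqA
  have := hx.prod_ne
  simp [vals, this]

theorem GoodPt.evalB {x : Fin n → ℂ} (hx : GoodPt σ lam z x) :
    MvPolynomial.eval₂Hom σ (vals x) (eqB lam z) = 0 := by
  unfold eqB
  have h1 := hx.prod_ne
  have h2 := hx.eq
  rw [Finset.prod_div_distrib] at h2
  simp only [map_sub, map_mul, map_prod, map_one, MvPolynomial.coe_eval₂Hom,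
    MvPolynomial.eval₂_C, MvPolynomial.eval₂_X]
  show σ lam * (∏ k, x k)⁻¹ * ∏ k, ∏ i, (x k - σ (z k i)) - 1 = 0
  rw [sub_eq_zero, ← h2]
  field_simp

/-- evaluation of the regular functions at a complex point of the hypersurface -/
noncomputable def evX {x : Fin n → ℂ} (hx : GoodPt σ lam z x) : CRing lam z →+* ℂ :=
  Ideal.Quotient.lift (Ideal.span {eqA K n, eqB lam z}) (MvPolynomial.eval₂Hom σ (vals x)) (by
    intro p hp
    have h1 : Ideal.span {eqA K n, eqB lam z} ≤
        RingHom.ker (MvPolynomial.eval₂Hom σ (vals x)) := by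
      rw [Ideal.span_le]
      rintro q (rfl | rfl)
      · exact hx.evalA
      · exact hx.evalB
    exact h1 hp)

theorem evX_fpol {x : Fin n → ℂ} (hx : GoodPt σ lam z x)
    (p : MvPolynomial (Option (Fin n)) K) :
    evX hx (fpol lam z p) = MvPolynomial.eval₂Hom σ (vals x) p :=
  Ideal.Quotient.lift_mk _ _ _

theorem evX_cst {x : Fin n → ℂ} (hx : GoodPt σ lam z x) (c : K) :
    evX hx (cst lam z c) = σ c := by
  show evX hx (fpol lam z (MvPolynomial.C c)) = _
  rw [evX_fpol]
  simp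

theorem evX_fx {x : Fin n → ℂ} (hx : GoodPt σ lam z x) (k : Fin n) :
    evX hx (fx lam z k) = x k := by
  unfold fx
  rw [evX_fpol]
  simp [vals]

theorem evX_congr {x y : Fin n → ℂ} (hx : GoodPt σ lam z x) (hy : GoodPt σ lam z y) (h : x = y) :
    evX hx = evX hy := by
  subst h
  rfl

theorem contDiff_evX {x : (Fin d → ℝ) → (Fin n → ℂ)} (hc : ContDiff ℝ 2 x)
    (hx : ∀ θ, GoodPt σ lam z (x θ)) (h : CRing lam z) :
    ContDiff ℝ 2 fun θ => evX (hx θ) h := by
  have hxk : ∀ k, ContDiff ℝ 2 fun θ => x θ k := fun k => contDiff_pi.1 hc k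
  have hp : ContDiff ℝ 2 fun θ => (∏ k, x θ k)⁻¹ := by
    refine ContDiff.inv ?_ fun θ => (hx θ).prod_ne
    exact contDiff_prod fun k _ => hxk k
  have hv : ∀ o, ContDiff ℝ 2 fun θ => vals (x θ) o := by
    intro o
    cases o with
    | none => exact hp
    | some k => exact hxk k
  obtain ⟨p, hp⟩ := Ideal.Quotient.mk_surjective h
  have hmv : ∀ p : MvPolynomial (Option (Fin n)) K,
      ContDiff ℝ 2 fun θ => MvPolynomial.eval₂Hom σ (vals (x θ)) p := by
    intro p
    induction p using MvPolynomial.induction_on with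
    | C c => simpa using contDiff_const
    | add p q hp hq => simpa using hp.add hq
    | mul_X p k hp => simpa using hp.mul (hv k)
  have e : (fun θ => evX (hx θ) h) = fun θ => MvPolynomial.eval₂Hom σ (vals (x θ)) p := by
    funext θ
    rw [← hp]
    exact evX_fpol (hx θ) p
  rw [e]
  exact hmv p

/-- a torus in the hypersurface -/
noncomputable def mkT (x : (Fin d → ℝ) → (Fin n → ℂ)) (hc : ContDiff ℝ 2 x)
    (hp : ∀ θ i, x (θ + Pi.single i 1) = x θ)
    (hx : ∀ θ, GoodPt σ lam z (x θ)) : Torus (CRing lam z) d where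
  e θ := evX (hx θ)
  smooth h := contDiff_evX hc hx h
  periodic θ i := evX_congr _ _ (hp θ i)

variable (x : (Fin d → ℝ) → (Fin n → ℂ)) (hc : ContDiff ℝ 2 x)
  (hp : ∀ θ i, x (θ + Pi.single i 1) = x θ) (hx : ∀ θ, GoodPt σ lam z (x θ))

theorem mkT_uz (k : Fin n) (i : Fin (r k + 1)) :
    (mkT x hc hp hx).fn (uz lam z k i : CRing lam z) = fun θ => x θ k - σ (z k i) := by
  funext θ
  show evX (hx θ) (fx lam z k - cst lam z (z k i)) = _
  rw [map_sub, evX_fx, evX_cst]

/-- The functions `1` and `x - β`, `β` a zero or the pole `0` of `F_k`. -/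
noncomputable def phi (σ : K →+* ℂ) (z : ∀ k, Fin (r k + 1) → K) (k : Fin n) :
    Option (Option (Fin (r k + 1))) → ℂ → ℂ
  | none, _ => 1
  | some none, x => x
  | some (some i), x => x - σ (z k i)

/-- the numerators of the entries -/
def num : Option (∀ k, Fin (r k)) → ∀ k, Option (Option (Fin (r k + 1)))
  | none, _ => some none
  | some i, k => some (some (i k).castSucc)

/-- the denominators of the entries -/
def den : Option (∀ k, Fin (r k)) → ∀ k, Option (Option (Fin (r k + 1)))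
  | none, _ => none
  | some i, k => some (some (i k).succ)

theorem mkT_ent (c : Option (∀ k, Fin (r k))) (k : Fin n) :
    (mkT x hc hp hx).fn (ent lam z c k : CRing lam z) =
      fun θ => phi σ z k (num c k) (x θ k) / phi σ z k (den c k) (x θ k) := by
  cases c with
  | none =>
    funext θ
    show evX (hx θ) (fx lam z k) = x θ k / 1
    rw [evX_fx, div_one]
  | some i =>
    have h1 : ent lam z (some i) k = uz lam z k (i k).castSucc / uz lam z k (i k).succ := rfl
    have h4 := mkT_uz x hc hp hx k (i k).castSucc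
    have h5 := mkT_uz x hc hp hx k (i k).succ
    funext θ
    have h3 := ((mkT x hc hp hx).good (uz lam z k (i k).succ)).ne_zero θ
    have h6 : (mkT x hc hp hx).fn (ent lam z (some i) k : CRing lam z) θ *
        (mkT x hc hp hx).fn (uz lam z k (i k).succ : CRing lam z) θ =
        (mkT x hc hp hx).fn (uz lam z k (i k).castSucc : CRing lam z) θ := by
      unfold Torus.fn
      rw [h1, ← map_mul, ← Units.val_mul, div_mul_cancel]
    rw [h4, h5] at h6
    rw [h5] at h3
    show _ = (x θ k - σ (z k (i k).castSucc)) / (x θ k - σ (z k (i k).succ))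
    rw [eq_div_iff h3]
    exact h6

end Ev

end Pool.Agent.K6.H95.TC
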