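import Pool.Agent.K6.H95.TC.Tori
set_option autoImplicit false

/-!
The regulators of the symbols on the tori near the two degenerate fibres.
-/

namespace Pool.Agent.K6.H95.TC

open Pool.Agent.TH826.MK
open Pool.Agent.TH826.MH (Nice norm_circ_sub_ge exists_bound_pairing pairing_w pairing_cons_div0
  good_w good_comp)

section pts

/-- the zeros of `F_k` and its pole `0` -/
def bt {K : Type*} [Field K] {n : ℕ} {r : Fin n → ℕ} (σ : K →+* ℂ) (z : ∀ k, Fin (r k + 1) → K)
    (k : Fin n) : Option (Fin (r k + 1)) → ℂ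
  | none => 0
  | some i => σ (z k i)

theorem phi_some {K : Type*} [Field K] {n : ℕ} {r : Fin n → ℕ} (σ : K →+* ℂ)
    (z : ∀ k, Fin (r k + 1) → K) (k : Fin n) (o : Option (Fin (r k + 1))) (x : ℂ) :
    phi σ z k (some o) x = x - bt σ z k o := by
  cases o with
  | none => show x = x - 0; rw [sub_zero]
  | some i => rfl

/-- a radius smaller than all the distances -/
theorem exists_radius' {n : ℕ} {ι : Fin n → Type*} [∀ k, Finite (ι k)] (β : ∀ k, ι k → ℂ)
    (hβ : ∀ k, Function.Injective (β k)) :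
    ∃ ρ : ℝ, 0 < ρ ∧ ∀ k i j, i ≠ j → ρ < ‖β k i - β k j‖ := by
  have h : ∀ k i j, ∀ᶠ ρ in nhdsWithin (0 : ℝ) (Set.Ioi 0), i ≠ j → ρ < ‖β k i - β k j‖ := by
    intro k i j
    by_cases hij : i = j
    · exact Filter.Eventually.of_forall fun ρ h => absurd hij h
    · have h1 : 0 < ‖β k i - β k j‖ := norm_pos_iff.2 (sub_ne_zero.2 fun e => hij (hβ k e))
      have h2 : ∀ᶠ ρ in nhds (0 : ℝ), ρ < ‖β k i - β k j‖ := eventually_lt_nhds h1
      filter_upwards [nhdsWithin_le_nhds h2] with ρ hρ _ using hρ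
  have h1 := Filter.eventually_all.2 fun k => Filter.eventually_all.2 fun i =>
    Filter.eventually_all.2 fun j => h k i j
  obtain ⟨ρ, hρ1, hρ2⟩ := (h1.and self_mem_nhdsWithin).exists
  exact ⟨ρ, hρ2, fun k i j hij => hρ1 k i j hij⟩

theorem one_const (c : ℂ) (hc : c ≠ 0) : One (fun _ => c) 0 where
  smooth := contDiff_const
  ne_zero _ := hc
  per _ := rfl
  wind := by simp

theorem Good.inv' {d : ℕ} {g : (Fin d → ℝ) → ℂ} (hg : Good g) : Good fun θ => (g θ)⁻¹ :=
  ⟨hg.smooth.inv hg.ne_zero, fun θ => inv_ne_zero (hg.ne_zero θ)⟩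

theorem norm_circ_sub_le {R : ℝ} (hR : 0 < R) (b : ℂ) (s : ℝ) : ‖circ R s - b‖ ≤ R + ‖b‖ := by
  have h := norm_sub_le (circ R s) b
  rwa [norm_circ hR.le] at h

end pts

section val

variable {K : Type*} [Field K] {d : ℕ} {r : Fin (d + 1) → ℕ} (σ : K →+* ℂ)
  (z : ∀ k, Fin (r k + 1) → K)

/-- the exponent of `x - c` in an entry -/
noncomputable def wx {m : ℕ} (c : Option (Fin m)) (o : Option (Option (Fin m))) : ℝ :=
  if o = some c then 1 else 0

/-- the function `F_k` or its inverse -/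
noncomputable def QQ (s : Bool) (k : Fin (d + 1)) (x : ℂ) : ℂ :=
  if s then (∏ i, (x - σ (z k i))) / x else ((∏ i, (x - σ (z k i))) / x)⁻¹

/-- the point over the circle -/
noncomputable def pt (ρ : ℝ) (c : ∀ k, Option (Fin (r k + 1))) (k : Fin (d + 1)) (s : ℝ) : ℂ :=
  circ ρ s + bt σ z k (c k)

/-- the entries over the circles -/
noncomputable def VV (ρ : ℝ) (c : ∀ k, Option (Fin (r k + 1))) (cl : Option (∀ k, Fin (r k)))
    (k : Fin d) (s : ℝ) : ℂ :=
  phi σ z k.succ (num cl k.succ) (pt σ z ρ c k.succ s) /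
    phi σ z k.succ (den cl k.succ) (pt σ z ρ c k.succ s)

/-- the product of the functions `F_k^{±1}` over the circles -/
noncomputable def FF (s : Bool) (ρ : ℝ) (c : ∀ k, Option (Fin (r k + 1))) (θ : Fin d → ℝ) : ℂ :=
  ∏ k : Fin d, QQ σ z s k.succ (pt σ z ρ c k.succ (θ k))

variable {σ z} {ρ : ℝ} {c : ∀ k, Option (Fin (r k + 1))}

theorem bt_injective (hz : ∀ k, Function.Injective (z k)) (hz0 : ∀ k i, z k i ≠ 0) (k : Fin (d + 1)) :
    Function.Injective (bt σ z k) := by
  intro a b h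
  match a, b with
  | none, none => rfl
  | none, some i => exact absurd h.symm ((_root_.map_ne_zero σ).2 (hz0 k i))
  | some i, none => exact absurd h ((_root_.map_ne_zero σ).2 (hz0 k i))
  | some i, some j => rw [hz k (σ.injective h)]

variable (hρ : 0 < ρ) (hsep : ∀ k i j, i ≠ j → ρ < ‖bt σ z k i - bt σ z k j‖)
include hρ hsep

theorem one_bt (k : Fin (d + 1)) (o : Option (Fin (r k + 1))) :
    One (fun s => pt σ z ρ c k s - bt σ z k o) (if o = c k then 1 else 0) := by
  have e : (fun s => pt σ z ρ c k s - bt σ z k o) =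
      fun s => circ ρ s - (bt σ z k o - bt σ z k (c k)) := by
    funext s
    unfold pt
    ring
  rw [e]
  by_cases h : o = c k
  · rw [if_pos h]
    have h1 := one_lin hρ (b := bt σ z k o - bt σ z k (c k)) (by
      rw [h, sub_self, norm_zero]; exact hρ.ne)
    have h2 : wd ρ (bt σ z k o - bt σ z k (c k)) = 1 := by
      unfold wd
      rw [h, sub_self, norm_zero, if_pos hρ]
    rwa [h2] at h1
  · rw [if_neg h]
    have h1 := one_lin hρ (b := bt σ z k o - bt σ z k (c k)) (hsep k _ _ h).ne'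
    have h2 : wd ρ (bt σ z k o - bt σ z k (c k)) = 0 := by
      unfold wd
      rw [if_neg (not_lt.2 (hsep k _ _ h).le)]
    rwa [h2] at h1

theorem one_phi (k : Fin (d + 1)) (o : Option (Option (Fin (r k + 1)))) :
    One (fun s => phi σ z k o (pt σ z ρ c k s)) (wx (c k) o) := by
  cases o with
  | none =>
    have e : wx (c k) none = 0 := by unfold wx; simp
    rw [e]
    exact one_const 1 one_ne_zero
  | some o =>
    have e : wx (c k) (some o) = if o = c k then 1 else 0 := by unfold wx; simp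
    rw [e]
    simp only [phi_some]
    exact one_bt hρ hsep k o

theorem one_VV (cl : Option (∀ k, Fin (r k))) (k : Fin d) :
    One (VV σ z ρ c cl k) (wx (c k.succ) (num cl k.succ) - wx (c k.succ) (den cl k.succ)) :=
  (one_phi hρ hsep k.succ _).div (one_phi hρ hsep k.succ _)

theorem good_QQ (s : Bool) (k : Fin d) :
    Good fun θ : Fin d → ℝ => QQ σ z s k.succ (pt σ z ρ c k.succ (θ k)) := by
  have h1 : Good fun θ : Fin d → ℝ => ∏ i, (pt σ z ρ c k.succ (θ k) - σ (z k.succ i)) :=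
    good_prod Finset.univ fun i => (one_bt hρ hsep k.succ (some i)).good k
  have h2 : Good fun θ : Fin d → ℝ => pt σ z ρ c k.succ (θ k) := by
    have := (one_bt (c := c) hρ hsep k.succ none).good k
    have e : (fun θ : Fin d → ℝ => pt σ z ρ c k.succ (θ k) - bt σ z k.succ none) =
        fun θ : Fin d → ℝ => pt σ z ρ c k.succ (θ k) := by
      funext θ
      show pt σ z ρ c k.succ (θ k) - 0 = _
      rw [sub_zero]
    rwa [e] at this
  have h3 : Good fun θ : Fin d → ℝ => (∏ i, (pt σ z ρ c k.succ (θ k) - σ (z k.succ i))) /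
      pt σ z ρ c k.succ (θ k) := by
    simp only [div_eq_mul_inv]
    exact h1.mul (Good.inv' h2)
  unfold QQ
  cases s
  · simpa using Good.inv' h3
  · simpa using h3

theorem good_FF (s : Bool) : Good (FF σ z s ρ c) :=
  good_prod Finset.univ fun k => good_QQ hρ hsep s k

theorem exists_QQ_ge (s : Bool) (k : Fin (d + 1)) :
    ∃ c0 : ℝ, 0 < c0 ∧ ∀ t, c0 ≤ ‖QQ σ z s k (pt σ z ρ c k t)‖ := by
  have hne : ∀ o, 0 < |ρ - ‖bt σ z k o - bt σ z k (c k)‖| := by
    intro o
    refine abs_pos.2 (sub_ne_zero.2 ?_)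
    by_cases h : o = c k
    · rw [h, sub_self, norm_zero]
      exact hρ.ne'
    · exact (hsep k _ _ h).ne
  have hup : ∀ o, 0 < ρ + ‖bt σ z k o - bt σ z k (c k)‖ := fun o => by positivity
  have e : ∀ o t, pt σ z ρ c k t - bt σ z k o = circ ρ t - (bt σ z k o - bt σ z k (c k)) := by
    intro o t
    unfold pt
    ring
  have h1 : ∀ o t, |ρ - ‖bt σ z k o - bt σ z k (c k)‖| ≤ ‖pt σ z ρ c k t - bt σ z k o‖ := by
    intro o t
    rw [e]
    exact norm_circ_sub_ge hρ _ _
  have h2 : ∀ o t, ‖pt σ z ρ c k t - bt σ z k o‖ ≤ ρ + ‖bt σ z k o - bt σ z k (c k)‖ := by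
    intro o t
    rw [e]
    exact norm_circ_sub_le hρ _ _
  have h0 : ∀ t, pt σ z ρ c k t = pt σ z ρ c k t - bt σ z k none := by
    intro t
    show _ = _ - 0
    rw [sub_zero]
  cases s with
  | true =>
    refine ⟨(∏ i : Fin (r k + 1), |ρ - ‖bt σ z k (some i) - bt σ z k (c k)‖|) /
      (ρ + ‖bt σ z k none - bt σ z k (c k)‖), ?_, fun t => ?_⟩
    · exact div_pos (Finset.prod_pos fun i _ => hne _) (hup _)
    · have e2 : QQ σ z true k (pt σ z ρ c k t) =
          (∏ i, (pt σ z ρ c k t - bt σ z k (some i))) / (pt σ z ρ c k t - bt σ z k none) := by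
        rw [← h0]
        rfl
      rw [e2, norm_div, norm_prod]
      exact div_le_div₀ (Finset.prod_nonneg fun i _ => norm_nonneg _)
        (Finset.prod_le_prod (fun i _ => abs_nonneg _) fun i _ => h1 _ _)
        ((hne none).trans_le (h1 _ _)) (h2 _ _)
  | false =>
    refine ⟨|ρ - ‖bt σ z k none - bt σ z k (c k)‖| /
      (∏ i : Fin (r k + 1), (ρ + ‖bt σ z k (some i) - bt σ z k (c k)‖)), ?_, fun t => ?_⟩
    · exact div_pos (hne _) (Finset.prod_pos fun i _ => hup _)
    · have e2 : QQ σ z false k (pt σ z ρ c k t) =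
          (pt σ z ρ c k t - bt σ z k none) / (∏ i, (pt σ z ρ c k t - bt σ z k (some i))) := by
        rw [← h0]
        show ((∏ i, (pt σ z ρ c k t - σ (z k i))) / pt σ z ρ c k t)⁻¹ = _
        rw [inv_div]
        rfl
      rw [e2, norm_div, norm_prod]
      exact div_le_div₀ (norm_nonneg _) (h1 _ _)
        (Finset.prod_pos fun i _ => (hne (some i)).trans_le (h1 _ _))
        (Finset.prod_le_prod (fun i _ => norm_nonneg _) fun i _ => h2 _ _)

theorem exists_FF_ge (s : Bool) : ∃ c0 : ℝ, 0 < c0 ∧ ∀ θ, c0 ≤ ‖FF σ z s ρ c θ‖ := by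
  choose c0 h0 h1 using fun k : Fin d => exists_QQ_ge (c := c) hρ hsep s k.succ
  refine ⟨∏ k, c0 k, Finset.prod_pos fun k _ => h0 k, fun θ => ?_⟩
  unfold FF
  rw [norm_prod]
  exact Finset.prod_le_prod (fun k _ => (h0 k).le) fun k _ => h1 k _

end val

section main

/-- `x` or its inverse -/
noncomputable def Lg {F : Type*} [Inv F] (s : Bool) (x : F) : F := if s then x else x⁻¹

theorem exists_torus {K : Type*} [Field K] (σ : K →+* ℂ) {d : ℕ} {r : Fin (d + 1) → ℕ}
    (z : ∀ k, Fin (r k + 1) → K) (hz : ∀ k, Function.Injective (z k)) (hz0 : ∀ k i, z k i ≠ 0)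
    (s : Bool) (c : ∀ k, Option (Fin (r k + 1))) (hc : (c 0).isSome = s) :
    ∃ Λ B : ℝ, ∀ lam : K, lam ≠ 0 → Λ ≤ ‖Lg s (σ lam)‖ → ∃ Γ : Torus (CRing lam z) d,
      (∀ θ x, Γ.e θ (cst lam z x) = σ x) ∧
      ∀ cl : Option (∀ k, Fin (r k)), |Γ.reg (symb (ent lam z cl)) +
        (2 * Real.pi) ^ d * Real.log ‖Lg s (σ lam)‖ *
          ∏ k, (wx (c k) (num cl k) - wx (c k) (den cl k))| ≤ B := by
  classical
  have hβi := fun k => bt_injective (σ := σ) hz hz0 k
  obtain ⟨ρ, hρ, hsep⟩ := exists_radius' (bt σ z) hβi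
  -- the branch
  obtain ⟨h, hh, hh0, hQ⟩ : ∃ h : ℂ → ℂ, AnalyticAt ℂ h (bt σ z 0 (c 0)) ∧
      h (bt σ z 0 (c 0)) ≠ 0 ∧ ∀ x, QQ σ z s 0 x = (x - bt σ z 0 (c 0)) * h x := by
    cases hc0 : c 0 with
    | some t =>
      rw [hc0] at hc
      have hs : s = true := hc.symm
      subst hs
      have hne : (bt σ z 0 (some t)) ≠ 0 := (_root_.map_ne_zero σ).2 (hz0 0 t)
      refine ⟨fun x => (∏ i ∈ Finset.univ.erase t, (x - σ (z 0 i))) / x, ?_, ?_, fun x => ?_⟩
      · refine AnalyticAt.div ?_ analyticAt_id hne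
        exact Finset.analyticAt_fun_prod _ fun i _ => analyticAt_id.sub analyticAt_const
      · refine div_ne_zero ?_ hne
        refine Finset.prod_ne_zero_iff.2 fun i hi => sub_ne_zero.2 fun e => ?_
        have h1 := hβi 0 (show bt σ z 0 (some t) = bt σ z 0 (some i) from e)
        exact (Finset.ne_of_mem_erase hi) (Option.some_injective _ h1).symm
      · show (∏ i, (x - σ (z 0 i))) / x = (x - σ (z 0 t)) * ((∏ i ∈ Finset.univ.erase t,
          (x - σ (z 0 i))) / x)
        rw [← Finset.mul_prod_erase _ _ (Finset.mem_univ t)]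
        ring
    | none =>
      rw [hc0] at hc
      have hs : s = false := hc.symm
      subst hs
      have h1 : ∏ i, ((0:ℂ) - σ (z 0 i)) ≠ 0 := by
        refine Finset.prod_ne_zero_iff.2 fun i _ => ?_
        rw [zero_sub, neg_ne_zero]
        exact (_root_.map_ne_zero σ).2 (hz0 0 i)
      refine ⟨fun x => (∏ i, (x - σ (z 0 i)))⁻¹, ?_, inv_ne_zero h1, fun x => ?_⟩
      · refine AnalyticAt.inv ?_ h1
        exact Finset.analyticAt_fun_prod _ fun i _ => analyticAt_id.sub analyticAt_const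
      · show ((∏ i, (x - σ (z 0 i))) / x)⁻¹ = (x - 0) * (∏ i, (x - σ (z 0 i)))⁻¹
        rw [inv_div, sub_zero, div_eq_mul_inv]
  obtain ⟨G, g, δ, C, hδ, hG, hg⟩ := exists_branch' hh hh0 (bt σ z 0)
  have hGc : ∀ w, ‖w‖ < δ → ∀ o, G w - bt σ z 0 o = (if o = c 0 then w else 1) * g o w := by
    intro w hw o
    obtain ⟨h1, h2⟩ := (hG w hw).2.2 o
    by_cases ho : o = c 0
    · rw [if_pos ho]
      exact h1 (by rw [ho])
    · rw [if_neg ho, one_mul]
      exact h2 fun e => ho (hβi 0 e)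
  have hF := good_FF (c := c) hρ hsep s
  obtain ⟨c0, hc0, hFc⟩ := exists_FF_ge (c := c) hρ hsep s
  have hV := fun cl : Option (∀ k, Fin (r k)) => one_VV (c := c) hρ hsep cl
  choose B1 hB1 using fun cl : Option (∀ k, Fin (r k)) => exists_bound_pairing hF (hV cl) δ C hδ
  set P : Option (∀ k, Fin (r k)) → ℝ :=
    fun cl => pairing (Fin.cons (FF σ z s ρ c) (vf (VV σ z ρ c cl))) with hP
  refine ⟨1 / (δ * c0) + 1, ∑ cl, (|P cl| + 2 * |B1 cl|), fun lam hlam0 hlam => ?_⟩
  have hσ0 : σ lam ≠ 0 := (_root_.map_ne_zero σ).2 hlam0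
  have hlpos : 0 < 1 / (δ * c0) := by positivity
  set l : ℂ := Lg s (σ lam) with hl
  have hln : 0 < ‖l‖ := by linarith
  have hl0 : l ≠ 0 := norm_pos_iff.1 hln
  have hw : ∀ θ, ‖(l * FF σ z s ρ c θ)⁻¹‖ < δ := by
    intro θ
    rw [norm_inv, norm_mul]
    have h1 := hFc θ
    have h2 : 1 / (δ * c0) < ‖l‖ := by linarith
    rw [div_lt_iff₀ (by positivity)] at h2
    have h3 : 1 < δ * (‖l‖ * ‖FF σ z s ρ c θ‖) := by
      calc 1 < ‖l‖ * (δ * c0) := h2
        _ = δ * (‖l‖ * c0) := by ring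
        _ ≤ δ * (‖l‖ * ‖FF σ z s ρ c θ‖) := by gcongr
    have h4 : 0 < ‖l‖ * ‖FF σ z s ρ c θ‖ := mul_pos hln (hc0.trans_le h1)
    rw [inv_lt_iff_one_lt_mul₀ h4]
    exact h3
  have hwne : ∀ θ, (l * FF σ z s ρ c θ)⁻¹ ≠ 0 := fun θ =>
    inv_ne_zero (mul_ne_zero hl0 (hF.ne_zero θ))
  -- the point
  set X : (Fin d → ℝ) → (Fin (d + 1) → ℂ) := fun θ =>
    Fin.cons (G (l * FF σ z s ρ c θ)⁻¹) (fun k => pt σ z ρ c k.succ (θ k)) with hX
  have hX0 : ∀ θ, X θ 0 = G (l * FF σ z s ρ c θ)⁻¹ := fun θ => rfl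
  have hXs : ∀ θ (k : Fin d), X θ k.succ = pt σ z ρ c k.succ (θ k) := fun θ k => rfl
  have hXc : ContDiff ℝ 2 X := by
    refine contDiff_pi.2 fun k => ?_
    refine Fin.cases ?_ (fun k => ?_) k
    · simp only [hX0]
      rw [contDiff_iff_contDiffAt]
      intro θ
      exact (((hG _ (hw θ)).1.contDiffAt (n := 2)).restrict_scalars ℝ).comp θ
        (good_w hF hl0).smooth.contDiffAt
    · simp only [hXs]
      exact ((contDiff_circ ρ).comp (contDiff_apply ℝ ℝ k)).add contDiff_const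
  have hcp : ∀ (θ : Fin d → ℝ) (i k : Fin d),
      circ ρ ((θ + Pi.single i 1 : Fin d → ℝ) k) = circ ρ (θ k) := by
    intro θ i k
    exact congrFun (tpt_add_single (fun _ => ρ) θ i) k
  have hpp : ∀ (θ : Fin d → ℝ) (i k : Fin d),
      pt σ z ρ c k.succ ((θ + Pi.single i 1 : Fin d → ℝ) k) = pt σ z ρ c k.succ (θ k) := by
    intro θ i k
    unfold pt
    rw [hcp]
  have hFp : ∀ θ i, FF σ z s ρ c (θ + Pi.single i 1) = FF σ z s ρ c θ := by
    intro θ i
    unfold FF
    simp only [hpp]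
  have hXp : ∀ θ i, X (θ + Pi.single i 1) = X θ := by
    intro θ i
    funext k
    refine Fin.cases ?_ (fun k => ?_) k
    · rw [hX0, hX0, hFp]
    · rw [hXs, hXs, hpp]
  have hXx : ∀ θ, GoodPt σ lam z (X θ) := by
    intro θ
    constructor
    · intro k
      refine Fin.cases ?_ (fun k => ?_) k
      · rw [hX0]
        have h1 := hGc _ (hw θ) none
        have h2 : bt σ z 0 none = 0 := rfl
        rw [h2, sub_zero] at h1
        rw [h1]
        refine mul_ne_zero ?_ (hg none _ (hw θ)).2.1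
        split_ifs
        · exact hwne θ
        · exact one_ne_zero
      · rw [hXs]
        have h1 := (one_bt (c := c) hρ hsep k.succ none).ne_zero (θ k)
        have h2 : bt σ z k.succ none = 0 := rfl
        rwa [h2, sub_zero] at h1
    · have h1 : QQ σ z s 0 (X θ 0) = (l * FF σ z s ρ c θ)⁻¹ := by
        rw [hQ, hX0]
        exact (hG _ (hw θ)).2.1
      have h2 : ∏ k : Fin d, QQ σ z s k.succ (X θ k.succ) = FF σ z s ρ c θ := rfl
      have h3 := hF.ne_zero θ
      have h4 : l * ∏ k, QQ σ z s k (X θ k) = 1 := by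
        rw [Fin.prod_univ_succ, h1, h2]
        field_simp
      cases hs : s with
      | true =>
        rw [hs] at h4 hl
        rw [hl] at h4
        exact h4
      | false =>
        rw [hs] at h4 hl
        rw [hl] at h4
        have h5 : (σ lam)⁻¹ * ∏ k, ((∏ i, (X θ k - σ (z k i))) / X θ k)⁻¹ = 1 := h4
        rw [Finset.prod_inv_distrib, ← mul_inv] at h5
        exact inv_eq_one.1 h5
  refine ⟨mkT X hXc hXp hXx, fun θ x => evX_cst (hXx θ) x, fun cl => ?_⟩
  rw [Torus.reg_symb]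
  unfold Torus.pair
  have e1 : (fun k => (mkT X hXc hXp hXx).fn (ent lam z cl k : CRing lam z)) =
      (Fin.cons (fun θ => phi σ z 0 (num cl 0) (G (l * FF σ z s ρ c θ)⁻¹) /
        phi σ z 0 (den cl 0) (G (l * FF σ z s ρ c θ)⁻¹)) (vf (VV σ z ρ c cl)) :
        Fin (d + 1) → (Fin d → ℝ) → ℂ) := by
    funext k
    refine Fin.cases ?_ (fun k => ?_) k
    · rw [mkT_ent]
      rfl
    · rw [mkT_ent, Fin.cons_succ]
      rfl
  rw [e1]
  have hv : ∀ k, Good (vf (VV σ z ρ c cl) k) := fun k => (hV cl k).good k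
  set W : ℝ := ∏ k : Fin d, (wx (c k.succ) (num cl k.succ) - wx (c k.succ) (den cl k.succ)) with hW
  have key : ∀ o, Good (fun θ => phi σ z 0 o (G (l * FF σ z s ρ c θ)⁻¹)) ∧
      |pairing (Fin.cons (fun θ => phi σ z 0 o (G (l * FF σ z s ρ c θ)⁻¹)) (vf (VV σ z ρ c cl))) -
        wx (c 0) o * (-((2 * Real.pi) ^ d * Real.log ‖l‖ * W) - P cl)| ≤ |B1 cl| := by
    intro o
    cases o with
    | none =>
      have e2 : (fun θ => phi σ z 0 none (G (l * FF σ z s ρ c θ)⁻¹)) = fun _ => (1 : ℂ) := rfl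
      have e3 : wx (c 0) none = 0 := by unfold wx; simp
      rw [e2, e3, pairing_one (hV cl), zero_mul, sub_zero, abs_zero]
      exact ⟨good_const one_ne_zero, abs_nonneg _⟩
    | some o =>
      have e3 : wx (c 0) (some o) = if o = c 0 then 1 else 0 := by unfold wx; simp
      have h1 : (fun θ => phi σ z 0 (some o) (G (l * FF σ z s ρ c θ)⁻¹)) = fun θ =>
          (if o = c 0 then (l * FF σ z s ρ c θ)⁻¹ else 1) * g o (l * FF σ z s ρ c θ)⁻¹ := by
        funext θ
        rw [phi_some]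
        exact hGc _ (hw θ) o
      rw [h1, e3]
      have hgc := good_comp hF hl0 hw (hg o)
      have hb := (hB1 cl l _ hl0 hw (hg o)).trans (le_abs_self _)
      by_cases ho : o = c 0
      · simp only [ho, if_true]
        rw [ho] at hgc hb
        refine ⟨(good_w hF hl0).mul hgc, ?_⟩
        rw [pairing_cons_mul (good_w hF hl0) hgc hv, pairing_w hF hl0 (hV cl)]
        simp only [hP]
        refine le_trans (le_of_eq ?_) hb
        congr 1
        rw [hW]
        ring
      · simp only [ho, if_false, one_mul]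
        refine ⟨hgc, ?_⟩
        rw [zero_mul, sub_zero]
        exact hb
  obtain ⟨g1, b1⟩ := key (num cl 0)
  obtain ⟨g2, b2⟩ := key (den cl 0)
  rw [pairing_cons_div0 g1 g2 (hV cl), Fin.prod_univ_succ, ← hW]
  set p1 := pairing (Fin.cons (fun θ => phi σ z 0 (num cl 0) (G (l * FF σ z s ρ c θ)⁻¹))
    (vf (VV σ z ρ c cl))) with hp1
  set p2 := pairing (Fin.cons (fun θ => phi σ z 0 (den cl 0) (G (l * FF σ z s ρ c θ)⁻¹))
    (vf (VV σ z ρ c cl))) with hp2
  set Q := (2 * Real.pi) ^ d * Real.log ‖l‖ with hQ'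
  set u1 := wx (c 0) (num cl 0) with hu1
  set u2 := wx (c 0) (den cl 0) with hu2
  have hu : |u1 - u2| ≤ 1 := by
    rw [hu1, hu2]
    unfold wx
    split_ifs <;> norm_num
  have b3 : |(u1 - u2) * P cl| ≤ |P cl| := by
    rw [abs_mul]
    calc |u1 - u2| * |P cl| ≤ 1 * |P cl| := mul_le_mul_of_nonneg_right hu (abs_nonneg _)
      _ = |P cl| := one_mul _
  have b4 : |p1 - p2 + Q * ((u1 - u2) * W)| ≤ |P cl| + 2 * |B1 cl| := by
    have e2 : p1 - p2 + Q * ((u1 - u2) * W) = (p1 - u1 * (-(Q * W) - P cl)) -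
      (p2 - u2 * (-(Q * W) - P cl)) - (u1 - u2) * P cl := by ring
    rw [e2]
    have c1 := abs_le.1 b1
    have c2 := abs_le.1 b2
    have c3 := abs_le.1 b3
    rw [abs_le]
    constructor <;> linarith [c1.1, c1.2, c2.1, c2.2, c3.1, c3.2]
  exact b4.trans (Finset.single_le_sum (f := fun cl => |P cl| + 2 * |B1 cl|)
    (fun i _ => by positivity) (Finset.mem_univ cl))

end main

end Pool.Agent.K6.H95.TC
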